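import Mathlib
import Pool.Agent.TH775.AC.Stmts

/-!
# Jack's lemma
-/

set_option autoImplicit false

open Complex Metric Set Filter Topology

namespace Pool.Agent.TH775.AC

namespace H73Jack

/-- boundary version: `g` maps the disc to the closed disc, `g 0 = 0`, `g 1 = 1` -/
lemma boundary {g : ℂ → ℂ} {a : ℂ} (hd : DifferentiableOn ℂ g (ball 0 1))
    (hm : MapsTo g (ball 0 1) (closedBall 0 1)) (g0 : g 0 = 0) (g1 : g 1 = 1)
    (ha : HasDerivAt g a 1) (v : ℂ) (hv : v.re < 0) : (a * v).re ≤ v.re := by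
  -- the path `1 + t v`
  have hpath : HasDerivAt (fun t : ℝ => (1 : ℂ) + (t : ℂ) * v) v (0 : ℝ) := by
    have h1 : HasDerivAt (fun t : ℝ => (t : ℂ)) 1 (0 : ℝ) := Complex.ofRealCLM.hasDerivAt
    have h2 := (h1.mul_const v).const_add (1 : ℂ)
    simpa using h2
  have ha' : HasDerivAt g a ((1 : ℂ) + ((0 : ℝ) : ℂ) * v) := by simpa using ha
  have hcomp : HasDerivAt (fun t : ℝ => g (1 + (t : ℂ) * v)) (a * v) (0 : ℝ) :=
    HasDerivAt.comp (0 : ℝ) ha' hpath
  have hre : HasDerivAt (fun t : ℝ => (g (1 + (t : ℂ) * v)).re) (a * v).re (0 : ℝ) :=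
    Complex.reCLM.hasFDerivAt.comp_hasDerivAt (0 : ℝ) hcomp
  have hq : HasDerivAt (fun t : ℝ => t * v.re + t ^ 2 * (normSq v / 2)) (v.re) (0 : ℝ) := by
    have h1 : HasDerivAt (fun t : ℝ => t * v.re) (1 * v.re) (0 : ℝ) :=
      (hasDerivAt_id (0 : ℝ)).mul_const _
    have h2 : HasDerivAt (fun t : ℝ => t ^ 2 * (normSq v / 2)) _ (0 : ℝ) :=
      (hasDerivAt_pow 2 (0 : ℝ)).mul_const _
    have h3 : HasDerivAt (fun t : ℝ => t * v.re + t ^ 2 * (normSq v / 2)) _ (0 : ℝ) := h1.add h2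
    refine h3.congr_deriv ?_
    simp
  have hφ0 : HasDerivAt (fun t : ℝ => (g (1 + (t : ℂ) * v)).re -
      (t * v.re + t ^ 2 * (normSq v / 2))) ((a * v).re - v.re) (0 : ℝ) := hre.sub hq
  have hφ := hφ0.tendsto_slope_zero_right
  have hle : ∀ᶠ t : ℝ in 𝓝[>] (0 : ℝ), t⁻¹ • (((g (1 + ((0 + t : ℝ) : ℂ) * v)).re -
      ((0 + t) * v.re + (0 + t) ^ 2 * (normSq v / 2))) -
      ((g (1 + ((0 : ℝ) : ℂ) * v)).re - (0 * v.re + 0 ^ 2 * (normSq v / 2)))) ≤ 0 := by
    have hvne : v ≠ 0 := by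
      rintro rfl
      simp at hv
    have hns : 0 < normSq v := Complex.normSq_pos.mpr hvne
    have hδ : 0 < -2 * v.re / normSq v := div_pos (by linarith) hns
    filter_upwards [Ioo_mem_nhdsGT hδ] with t ht
    have ht0 : 0 < t := ht.1
    have ht1 : t * normSq v < -2 * v.re := by
      have := ht.2
      rwa [lt_div_iff₀ hns] at this
    have hsq : normSq (1 + (t : ℂ) * v) = 1 + 2 * t * v.re + t ^ 2 * normSq v := by
      simp only [normSq_apply, add_re, one_re, mul_re, ofReal_re, ofReal_im, zero_mul, sub_zero,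
        add_im, one_im, mul_im, zero_add, add_zero]
      ring
    have hlt : normSq (1 + (t : ℂ) * v) < 1 := by
      rw [hsq]
      nlinarith
    have hnorm : ‖(1 : ℂ) + (t : ℂ) * v‖ < 1 := by
      rw [Complex.normSq_eq_norm_sq] at hlt
      have h0 := norm_nonneg ((1 : ℂ) + (t : ℂ) * v)
      nlinarith
    have hS := Complex.norm_le_norm_of_mapsTo_ball hd hm g0 hnorm
    have hS2 : (g (1 + (t : ℂ) * v)).re ≤ ‖(1 : ℂ) + (t : ℂ) * v‖ := (Complex.re_le_norm _).trans hS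
    have hAM : ‖(1 : ℂ) + (t : ℂ) * v‖ ≤ (1 + ‖(1 : ℂ) + (t : ℂ) * v‖ ^ 2) / 2 := by
      nlinarith [sq_nonneg (1 - ‖(1 : ℂ) + (t : ℂ) * v‖)]
    rw [← Complex.normSq_eq_norm_sq, hsq] at hAM
    rw [zero_add, smul_eq_mul]
    apply mul_nonpos_of_nonneg_of_nonpos (inv_nonneg.mpr ht0.le)
    have e1 : (1 : ℂ) + ((0 : ℝ) : ℂ) * v = 1 := by simp
    rw [e1, g1, one_re]
    linarith
  have hlim : (a * v).re - v.re ≤ 0 := by
    refine le_of_tendsto hφ ?_
    exact hle
  linarith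

end H73Jack

open H73Jack

theorem jack : S_JACK := by
  intro ω z₀ hz₀ hd h0 hne hmax
  set g : ℂ → ℂ := fun z => ω (z₀ * z) / ω z₀ with hg
  have hmem : ∀ z : ℂ, ‖z‖ ≤ 1 → z₀ * z ∈ closedBall (0 : ℂ) ‖z₀‖ := by
    intro z hz
    rw [mem_closedBall_zero_iff, norm_mul]
    exact mul_le_of_le_one_right (norm_nonneg _) hz
  have hgd : ∀ z : ℂ, ‖z‖ ≤ 1 → DifferentiableAt ℂ g z := by
    intro z hz
    have h1 : DifferentiableAt ℂ ω (z₀ * z) := hd _ (hmem z hz)
    exact (h1.comp z (differentiableAt_id.const_mul z₀)).div_const _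
  have hdo : DifferentiableOn ℂ g (ball 0 1) := fun z hz =>
    (hgd z (mem_ball_zero_iff.mp hz).le).differentiableWithinAt
  have hmaps : MapsTo g (ball 0 1) (closedBall 0 1) := by
    intro z hz
    rw [mem_closedBall_zero_iff]
    show ‖ω (z₀ * z) / ω z₀‖ ≤ 1
    rw [norm_div]
    exact div_le_one_of_le₀ (hmax _ (hmem z (mem_ball_zero_iff.mp hz).le)) (norm_nonneg _)
  have g0 : g 0 = 0 := by simp [hg, h0]
  have g1 : g 1 = 1 := by
    simp only [hg, mul_one]
    exact div_self hne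
  set a : ℂ := z₀ * deriv ω z₀ / ω z₀ with haa
  have ha : HasDerivAt g a 1 := by
    have h1 : HasDerivAt (fun z : ℂ => z₀ * z) z₀ (1 : ℂ) := by
      simpa using (hasDerivAt_id (1 : ℂ)).const_mul z₀
    have h2 : HasDerivAt ω (deriv ω z₀) (z₀ * 1) := by
      rw [mul_one]
      exact (hd z₀ (by rw [mem_closedBall_zero_iff])).hasDerivAt
    have h3 := (h2.comp (1 : ℂ) h1).div_const (ω z₀)
    have e : deriv ω z₀ * z₀ / ω z₀ = a := by rw [haa, mul_comm]
    rw [e] at h3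
    exact h3
  have key := fun v hv => boundary hdo hmaps g0 g1 ha v hv
  have hre : 1 ≤ a.re := by
    have := key (-1) (by simp)
    simp only [mul_neg, mul_one, neg_re, one_re] at this
    linarith
  have him : a.im = 0 := by
    -- direction `-ε ± i`
    have h1 : ∀ s : ℝ, ∀ ε : ℝ, 0 < ε → -(s * a.im) ≤ ε * (a.re - 1) := by
      intro s ε hε
      have := key (⟨-ε, s⟩ : ℂ) (by simpa using hε)
      simp only [mul_re] at this
      nlinarith
    have h2 : ∀ s : ℝ, -(s * a.im) ≤ 0 := by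
      intro s
      apply le_of_forall_pos_le_add
      intro δ hδ
      have hpos : 0 < a.re - 1 + 1 := by linarith
      have h3 := h1 s (δ / (a.re - 1 + 1)) (by positivity)
      have h4 : δ / (a.re - 1 + 1) * (a.re - 1) ≤ δ := by
        rw [div_mul_eq_mul_div, div_le_iff₀ hpos]
        nlinarith
      linarith
    have h5 := h2 1
    have h6 := h2 (-1)
    linarith
  refine ⟨a.re, hre, ?_⟩
  have e1 : ((a.re : ℝ) : ℂ) = a := by
    apply Complex.ext
    · simp
    · simp [him]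
  rw [e1, haa, div_mul_cancel₀ _ hne]

end Pool.Agent.TH775.AC
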